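import Mathlib
import Pool.Agent.Lib.MP_9ec118_lc.Main3

/-!
Under SETH (deterministic or randomised), no word-RAM program with running time
`O(n ^ (k - δ))` approximates k-Dominating Set within a factor
`log n / (log log n * A ^ (log* n))`, for a constant `A` that depends on `k` and `δ` only, even
when it is given the adjacency matrix, the sorted adjacency lists and the degrees.
-/

set_option autoImplicit false

namespace Pool.Agent.Results.MP_9ec118_lc.SETHNearLog

open Pool.Agent.Lib.MP_9ec118_lc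

theorem result (μ : MeasureTheory.Measure (ℕ → Bool)) [MeasureTheory.IsProbabilityMeasure μ]
    (hS : SETHr μ) (k : ℕ) (hk : 2 ≤ k) (δ : ℝ) (hδ : 0 < δ) :
    ∃ A : ℕ, 0 < A ∧ ¬ ∃ (P : List (ℕ × ℕ × ℕ × ℕ)) (C : ℕ), ∀ n ≥ C, ∃ w ≤ C * Nat.size n,
      ∀ G : SimpleGraph (Fin n),
        (∃ D : Finset (Fin n), D.card = k ∧ ∀ v, ∃ u ∈ D, u = v ∨ G.Adj u v) →
        2 / 3 ≤ μ {ω | ∃ out, Outputs P w (tape (input G) ω) (C * (n : ℝ) ^ ((k : ℝ) - δ)) out ∧
          (out.length : ℝ) ≤ Real.log n / (Real.log (Real.log n) *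
            A ^ sInf {j : ℕ | (Nat.log 2)^[j] n ≤ 1}) * k ∧
          ∀ v, ∃ u : Fin n, u.val ∈ out ∧ (u = v ∨ G.Adj u v)} :=
  main3 μ hS k hk δ hδ

end Pool.Agent.Results.MP_9ec118_lc.SETHNearLog
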