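import Mathlib
import Pool.Agent.FS.SosGap.Core

set_option autoImplicit false

namespace Pool.Agent.Results.MP_9ec118_lc.SosGap

open Finset MvPolynomial Pool.Agent.FS.SosGap

/-- For every `k ≥ 2` there are arbitrarily large graphs with no dominating set of size `c log n`
on which the sum-of-squares relaxation of `k`-Dominating Set is feasible, the domination
constraints being multiplied by squares of polynomials of degree at most `k - 2`.
`N u` is the closed neighbourhood of `u` and `E` is the pseudo-expectation. -/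
theorem result (k : ℕ) (hk : 2 ≤ k) :
    ∃ c : ℝ, 0 < c ∧ ∀ n₀ : ℕ, ∃ (V : Type) (_ : Fintype V) (G : SimpleGraph V)
      (N : V → Finset V), n₀ ≤ Fintype.card V ∧ (∀ u v, v ∈ N u ↔ v = u ∨ G.Adj u v) ∧
      (∀ D : Finset V, (∀ u, u ∈ D ∨ ∃ v ∈ D, G.Adj u v) →
        c * Real.log (Fintype.card V) < D.card) ∧
      ∃ E : MvPolynomial V ℝ →ₗ[ℝ] ℝ, E 1 = 1 ∧ (∀ p : MvPolynomial V ℝ, 0 ≤ E (p ^ 2)) ∧
        (∀ (v : V) (p : MvPolynomial V ℝ), E ((X v ^ 2 - X v) * p) = 0) ∧
        (∀ p : MvPolynomial V ℝ, E ((∑ v : V, X v - (k : MvPolynomial V ℝ)) * p) = 0) ∧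
        ∀ (u : V) (p : MvPolynomial V ℝ), p.totalDegree ≤ k - 2 →
          0 ≤ E ((∑ v ∈ N u, X v - 1) * p ^ 2) := by
  classical
  obtain ⟨Q, hQ, hp⟩ := Nat.exists_infinite_primes (2 ^ k * k + 3)
  have : Fact Q.Prime := ⟨hp⟩
  have hkQ : k + 1 ≤ Q := by
    have : 1 * k ≤ 2 ^ k * k := Nat.mul_le_mul_right _ Nat.one_le_two_pow
    omega
  have hQ1 : (1 : ℝ) < Q := by exact_mod_cast hp.one_lt
  have hlog : 0 < Real.log Q := Real.log_pos hQ1
  refine ⟨1 / (2 * Real.log Q), by positivity, fun n₀ => ?_⟩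
  obtain ⟨h, hh⟩ : ∃ h, h = n₀ + 1 := ⟨_, rfl⟩
  let W := Fin (h + h) → ZMod Q
  let V := (Fin k × W) ⊕ W
  have hW : Fintype.card W = Q ^ (h + h) := by simp [W, ZMod.card]
  have hV : Fintype.card V = (k + 1) * Q ^ (h + h) := by
    simp only [V, Fintype.card_sum, Fintype.card_prod, Fintype.card_fin, hW]
    ring
  have hh1 : h + 1 < Q ^ h :=
    calc h + 1 ≤ 2 ^ h := Nat.lt_two_pow_self
      _ < Q ^ h := Nat.pow_lt_pow_left (by omega) (by omega)
  let r : V → V → Prop := fun u v =>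
    Sum.elim (fun z : Fin k × W => Sum.elim (fun _ => True) (fun a : W => a ⬝ᵥ z.2 ≠ 0 ∨ a = 0) v)
      (fun _ => False) u
  let G : SimpleGraph V := SimpleGraph.fromRel r
  let N : V → Finset V := fun u => {v | v = u ∨ G.Adj u v}
  have hN : ∀ u v, v ∈ N u ↔ v = u ∨ G.Adj u v := fun u v => by simp [N]
  have hcol : ∀ (a : W) (z : Fin k × W), G.Adj (.inr a) (.inl z) ↔ a ⬝ᵥ z.2 ≠ 0 ∨ a = 0 :=
    fun a z => by simp [G, r, SimpleGraph.fromRel_adj]
  refine ⟨V, inferInstance, G, N, ?_, hN, fun D hD => ?_, ?_⟩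
  · rw [hV]
    calc n₀ ≤ Q ^ h := by omega
      _ ≤ Q ^ (h + h) := Nat.pow_le_pow_right hp.pos (by omega)
      _ ≤ _ := Nat.le_mul_of_pos_left _ (by omega)
  · have hD' : h < #D := by
      by_contra hle
      rw [not_lt] at hle
      let φ : W → D → ZMod Q := fun a w => Sum.elim (fun z : Fin k × W => a ⬝ᵥ z.2) (fun _ => 0) w.1
      obtain ⟨y, hy⟩ := Fintype.exists_lt_card_fiber_of_mul_lt_card φ (n := h + 1) (by
        rw [hW, Fintype.card_fun, ZMod.card, Fintype.card_coe, pow_add]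
        exact lt_of_le_of_lt (Nat.mul_le_mul_right _ (Nat.pow_le_pow_right hp.pos hle))
          (Nat.mul_lt_mul_of_pos_left hh1 (pow_pos hp.pos _)))
      obtain ⟨a₀, ha₀⟩ := card_pos.1 ((Nat.zero_le _).trans_lt hy)
      have h1 : #(({a | φ a = y} : Finset W).erase a₀) ≤ #D := by
        refine card_le_card_of_injOn (fun a => (Sum.inr (a - a₀) : V)) (fun a ha => ?_)
          fun a _ a' _ e => sub_left_injective (Sum.inr_injective e)
        obtain ⟨e1, e2⟩ := mem_erase.1 (mem_coe.1 ha)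
        refine mem_coe.2 ((hD _).resolve_right ?_)
        rintro ⟨v, hv, hadj⟩
        rcases v with z | b
        · have e3 := congrFun ((mem_filter.1 e2).2.trans (mem_filter.1 ha₀).2.symm) ⟨_, hv⟩
          rcases (hcol _ _).1 hadj with e4 | e4
          · exact e4 (by rw [sub_dotProduct]; exact sub_eq_zero.2 e3)
          · exact e1 (sub_eq_zero.1 e4)
        · simp [G, r, SimpleGraph.fromRel_adj] at hadj
      rw [card_erase_of_mem ha₀] at h1
      omega
    have h1 : (Fintype.card V : ℝ) ≤ (Q : ℝ) ^ (h + h + 1) := by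
      rw [hV, pow_succ']
      exact_mod_cast Nat.mul_le_mul_right _ hkQ
    have h2 := Real.log_le_log (by rw [hV]; have := hp.pos; positivity) h1
    have h3 : (h : ℝ) + 1 ≤ #D := by exact_mod_cast hD'
    rw [Real.log_pow] at h2
    rw [one_div, inv_mul_lt_iff₀ (by positivity)]
    push_cast at h2
    nlinarith
  let x : (Fin k → W) → V → ℝ := fun d =>
    Sum.elim (fun z : Fin k × W => if d z.1 = z.2 then 1 else 0) fun _ => 0
  obtain ⟨κ, hκ⟩ : ∃ κ : ℝ, κ = (Fintype.card (Fin k → W) : ℝ)⁻¹ := ⟨_, rfl⟩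
  have hκ0 : 0 ≤ κ := by rw [hκ]; positivity
  obtain ⟨E, hE⟩ : ∃ E : MvPolynomial V ℝ →ₗ[ℝ] ℝ, ∀ p, E p = κ * ∑ d, aeval (x d) p :=
    ⟨κ • ∑ d, (aeval (x d)).toLinearMap, fun p => by
      rw [LinearMap.smul_apply, LinearMap.sum_apply, smul_eq_mul]; rfl⟩
  have hsum : ∀ (A : Finset V) d, ∑ v ∈ A, x d v = #{i | Sum.inl (i, d i) ∈ A} := fun A d => by
    rw [← sum_boole, ← univ_inter A, ← sum_ite_mem, Fintype.sum_sum_type, Fintype.sum_prod_type]
    simp only [x, Sum.elim_inl, Sum.elim_inr, ite_self, sum_const_zero, add_zero, univ_inter]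
    refine sum_congr rfl fun i _ => ?_
    rw [sum_eq_single (d i) (fun w _ hw => by simp [hw.symm]) (by simp)]
    simp
  refine ⟨E, ?_, fun p => ?_, fun v p => ?_, fun p => ?_, fun u p hp' => ?_⟩
  · rw [hE, hκ]
    simp only [map_one, sum_const, card_univ, nsmul_eq_mul, mul_one]
    exact inv_mul_cancel₀ (by exact_mod_cast Fintype.card_ne_zero)
  · rw [hE]
    exact mul_nonneg hκ0 (sum_nonneg fun d _ => by rw [map_pow]; exact sq_nonneg _)
  · rw [hE, sum_eq_zero fun d _ => ?_, mul_zero]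
    rw [map_mul, map_sub, map_pow, aeval_X]
    rcases v with z | b
    · by_cases e : d z.1 = z.2 <;> simp [x, e]
    · simp [x]
  · rw [hE, sum_eq_zero fun d _ => ?_, mul_zero]
    rw [map_mul, map_sub, map_sum, map_natCast]
    simp only [aeval_X]
    rw [hsum]
    simp
  rw [hE]
  refine mul_nonneg hκ0 ?_
  simp only [map_mul, map_sub, map_sum, map_pow, map_one, aeval_X, hsum]
  by_cases hall : ∀ z : Fin k × W, Sum.inl z ∈ N u
  · refine sum_nonneg fun d _ => mul_nonneg ?_ (sq_nonneg _)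
    have : (2 : ℝ) ≤ k := by exact_mod_cast hk
    simp only [hall, filter_true, card_univ, Fintype.card_fin]
    linarith
  rcases u with z | a
  · refine absurd (fun z' => (hN _ _).2 ?_) hall
    by_cases e : z' = z
    · exact Or.inl (by rw [e])
    · exact Or.inr ((SimpleGraph.fromRel_adj _ _ _).2
        ⟨fun e' => e (Sum.inl_injective e').symm, Or.inl trivial⟩)
  have ha : a ≠ 0 := fun e => hall fun z => (hN _ _).2 (Or.inr ((hcol _ _).2 (Or.inr e)))
  obtain ⟨j, hj⟩ := Function.ne_iff.1 ha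
  have hmem : ∀ z : Fin k × W, Sum.inl z ∈ N (.inr a) ↔ a ⬝ᵥ z.2 ≠ 0 := fun z => by
    rw [hN, hcol]
    simp [ha]
  simp only [hmem]
  refine pos_core (fun v : W => a ⬝ᵥ v) (fun c v => v + Pi.single j ((a j)⁻¹ * c))
    (fun c => add_left_injective _) (fun c v hv => ?_) (by simp; omega)
    (by rw [Fintype.card_fin, ZMod.card]; omega) (fun d => aeval (x d) p) fun d e => ?_
  · have hj' : a j ≠ 0 := hj
    rw [dotProduct_add, hv, zero_add, dotProduct_single, mul_inv_cancel_left₀ hj']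
  simp only [aeval_def, eval₂_eq, mul_sum]
  rw [sum_comm]
  refine sum_eq_zero fun m hm => ?_
  let J : Finset (Fin k) := m.support.image (Sum.elim Prod.fst fun _ => ⟨0, by omega⟩)
  have hJ : #J ≤ k - 2 := by
    refine card_image_le.trans (le_trans ?_ ((le_totalDegree hm).trans hp'))
    rw [card_eq_sum_ones]
    exact sum_le_sum fun w hw => Nat.pos_of_ne_zero (Finsupp.mem_support_iff.1 hw)
  obtain ⟨i, hi, i', hi', hii⟩ := one_lt_card.1 (show 1 < #Jᶜ by
    rw [card_compl, Fintype.card_fin]; omega)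
  have key : ∀ i ∈ Jᶜ, ∀ S : Finset (Fin k), ∀ w ∈ m.support,
      x ((insert i S).piecewise e d) w = x (S.piecewise e d) w := by
    rintro i hi S (z | b) hw
    · have : z.1 ≠ i := fun e => mem_compl.1 hi (e ▸ mem_image_of_mem _ hw)
      simp only [x, Sum.elim_inl, piecewise_insert_of_ne _ _ _ this]
    · rfl
  exact alt_zero (fun S => algebraMap ℝ ℝ (coeff m p) *
      ∏ w ∈ m.support, x (S.piecewise e d) w ^ m w) hii
    (fun S => congrArg _ (prod_congr rfl fun w hw => by rw [key i hi S w hw]))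
    fun S => congrArg _ (prod_congr rfl fun w hw => by rw [key i' hi' S w hw])

end Pool.Agent.Results.MP_9ec118_lc.SosGap
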