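import Mathlib
import Pool.Agent.Lib.MP_9ec118_lc.H90Asym

/-!
Unconditionally, no deterministic word-RAM program with running time `O(n ^ (2 - δ))`
approximates 2-Dominating Set within a factor `O(n ^ η)` when `2 * η < δ`, whatever local input
format (adjacency matrix, degrees, sorted adjacency lists, packed or not) it is given.
-/

set_option autoImplicit false

namespace Pool.Agent.Results.MP_9ec118_lc.TwoUnconditional

open Pool.Agent.Lib.MP_9ec118_lc

theorem result (δ η C : ℝ) (hη : 0 ≤ η) (hδ : 2 * η < δ) (hδ1 : δ ≤ 1) :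
    ∃ N : ℕ, ∀ n ≥ N, ∀ (P : List (ℕ × ℕ × ℕ × ℕ)) (w : ℕ) (I : SimpleGraph (Fin n) → ℕ → ℕ),
      Local (C * Real.log n) I →
      ∃ G : SimpleGraph (Fin n),
        (∃ D : Finset (Fin n), D.card = 2 ∧ ∀ v, ∃ u ∈ D, u = v ∨ G.Adj u v) ∧
        ∀ out, Outputs P w (I G) (C * (n : ℝ) ^ (2 - δ)) out →
          (out.length : ℝ) ≤ C * (n : ℝ) ^ η →
          ¬ ∀ v, ∃ u : Fin n, u.val ∈ out ∧ (u = v ∨ G.Adj u v) := by
  obtain ⟨N, hN⟩ := Filter.eventually_atTop.1 (H90.params δ η C hη hδ hδ1)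
  refine ⟨N, fun n hn P w I hI => ?_⟩
  obtain ⟨s, g, m, q, hs, h1, h2, h3⟩ := hN n hn
  obtain ⟨G, hG, h4⟩ := H90.finite_bound h1 (by omega) h2 h3 hI P w
  refine ⟨G, hG, fun out ho hl => ?_⟩
  rw [H90.out_eq ho le_rfl] at h4
  exact h4 (hs ▸ Nat.le_succ_of_le (Nat.le_floor hl))

end Pool.Agent.Results.MP_9ec118_lc.TwoUnconditional
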