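import Pool.Agent.FS.MonoDom.WCore
import Pool.Agent.FS.MonoDom.WNum

/-!
Randomised monotone real circuits with gates of fan-in up to `n ^ γ` that separate graphs with a dominating `k`-set from graphs with no
dominating set of size `c log n` have more than `n ^ (k - d)` nodes.
-/

namespace Pool.Agent.Results.MP_9ec118_lc.WideMonotone

open Pool.Agent.FS.MonoDom

theorem result (k : ℕ) (hk : 2 ≤ k) (d : ℝ) (hd : 0 < d) :
    ∃ c : ℝ, 0 < c ∧ ∃ γ : ℝ, 0 < γ ∧ ∃ N : ℕ, ∀ n : ℕ, N ≤ n →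
      ∀ (t : ℕ), 0 < t → ∀ C : Fin t → List (WGate (Fin n × Fin n)),
      (∀ j, ∀ g ∈ C j, (fanIn g : ℝ) ≤ (n : ℝ) ^ γ) →
      (∀ G : SimpleGraph (Fin n), (∃ D : Finset (Fin n), D.card = k ∧ Dominating G D) →
        2 * t ≤ 3 * Nat.card {j : Fin t // WAccepts (C j) fun p => G.Adj p.1 p.2}) →
      (∀ G : SimpleGraph (Fin n),
        (∀ D : Finset (Fin n), Dominating G D → c * Real.log n < D.card) →
        3 * Nat.card {j : Fin t // WAccepts (C j) fun p => G.Adj p.1 p.2} ≤ t) →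
      ∃ j, (n : ℝ) ^ ((k : ℝ) - d) < (C j).length := by
  have hd0 : 0 < min d 1 := lt_min hd one_pos
  obtain ⟨c0, hc0, N0, H⟩ := wparams k hk (min d 1) hd0 (min_le_right _ _)
  refine ⟨c0, hc0, min d 1 / (4 * k), by positivity, N0 + 1, fun N hN t ht C hfan hpos hneg => ?_⟩
  have hN1 : (1:ℝ) ≤ N := by exact_mod_cast (by omega : 1 ≤ N)
  suffices hs : ∃ j, (N : ℝ) ^ ((k : ℝ) - min d 1) < (C j).length from
    hs.imp fun j hj => lt_of_le_of_lt
      (Real.rpow_le_rpow_of_exponent_le hN1 (by linarith [min_le_left d 1])) hj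
  obtain ⟨m, n, Q, c, T, h, ρ, s, eps, rfl, hc, hcQ, hs0, hs, he0, he, hT, hh, hn, hρ1, hρ,
    h1, h2, h3⟩ := H N (by omega)
  by_contra hL
  have hQ : 0 < Q := lt_of_lt_of_le (by positivity) hcQ
  have htR : (0:ℝ) < t := by exact_mod_cast ht
  have : Nonempty (Fin t) := ⟨⟨0, ht⟩⟩
  obtain ⟨j, hj⟩ := average
    (fun (j : Fin t) (τ : (Fin k → Fin n) × (Fin m → Fin k)) => Function.Injective τ.1 ∧
      ¬ WAccepts (C j) fun p => (gr (X Finset.univ τ.1 τ.2)).Adj p.1 p.2)
    (fun (j : Fin t) (y : Fin m → Fin n → Fin Q) =>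
      (¬ ∃ (S : Finset (Fin n)) (B : Finset (Fin m)),
        S.card ≤ h ∧ B.card ≤ h ∧ ∀ u, u ∉ B → ∃ r ∈ S, (y u r).val ≠ 0) ∧
      WAccepts (C j) fun p => (gr (Y Finset.univ y)).Adj p.1 p.2)
    (fun τ => by
      by_cases hτ : Function.Injective τ.1
      · refine (pr_mono fun j hj => hj.2).trans ?_
        have a1 : (2:ℝ) * t ≤ 3 * Nat.card {j : Fin t // WAccepts (C j) fun p =>
            (gr (X Finset.univ τ.1 τ.2)).Adj p.1 p.2} := by
          exact_mod_cast hpos _ (gr_pos hk τ.1 hτ τ.2)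
        rw [pr_not, pr_fin, sub_le_comm, le_div_iff₀ htR]
        linarith
      · exact (pr_mono (P' := fun _ => False) fun j hj => hτ hj.1).trans
          (by rw [pr_false]; norm_num))
    (fun y => by
      by_cases hy : ∃ (S : Finset (Fin n)) (B : Finset (Fin m)),
        S.card ≤ h ∧ B.card ≤ h ∧ ∀ u, u ∉ B → ∃ r ∈ S, (y u r).val ≠ 0
      · exact (pr_mono (P' := fun _ => False) fun j hj => hj.1 hy).trans
          (by rw [pr_false]; norm_num)
      · refine (pr_mono fun j hj => hj.2).trans ?_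
        have a1 : (3:ℝ) * Nat.card {j : Fin t // WAccepts (C j) fun p =>
            (gr (Y Finset.univ y)).Adj p.1 p.2} ≤ t := by
          exact_mod_cast hneg _ fun D hD => by
            by_cases hDh : D.card ≤ h
            · exact absurd (gr_neg y D hDh hD) hy
            · have : (h:ℝ) + 1 ≤ D.card := by exact_mod_cast not_le.1 hDh
              linarith
        rw [pr_fin, div_le_iff₀ htR]
        linarith)
  refine wcore (R := Fin n) (m := m) hρ1 hc hcQ hs0 hs hT he0 he hk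
    (fun p x => (gr x).Adj p.1 p.2) (fun p => rel_simple hk _ _) (C j)
    (fun g hg => by exact_mod_cast (hfan j g hg).trans hρ) (by simpa using hn) _
    (not_lt.1 fun e => hL ⟨j, e⟩) (by simpa using h2) (by simpa using h3) ?_
  have a1 := (neg_bound m n Q h hQ).trans h1
  have a2 := (pr_mono (P := fun y : Fin m → Fin n → Fin Q =>
      WAccepts (C j) fun p => (gr (Y Finset.univ y)).Adj p.1 p.2) fun y hy =>
    (em (∃ (S : Finset (Fin n)) (B : Finset (Fin m)),
      S.card ≤ h ∧ B.card ≤ h ∧ ∀ u, u ∉ B → ∃ r ∈ S, (y u r).val ≠ 0)).imp_right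
      fun e => And.intro e hy).trans (pr_or _ _)
  linarith

end Pool.Agent.Results.MP_9ec118_lc.WideMonotone
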